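import Mathlib.Algebra.Category.Grp.Basic
import Mathlib.GroupTheory.Abelianization.Defs
import Mathlib.LinearAlgebra.TensorProduct.RightExactness
import Mathlib.Algebra.Module.Rat
import Mathlib.Data.Rat.Cast.CharZero
import Mathlib.Tactic
import Mathlib.CategoryTheory.ConcreteCategory.ReflectsIso
import Mathlib.Algebra.Category.Grp.EpiMono

/-!
# MP_52d248_al, Q1: a conditionally flat localization of groups which is not an epireflection

The functor `L G = ℚ ⊗ G_ab` (rationalization of the abelianization) is a localization functor on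
the category of groups, it is conditionally flat, and `ℤ → L ℤ = ℚ` is not surjective.

An extension `1 → N → E → G → 1` is `L`-flat if and only if `L N → L E` is injective, because
`L` is right exact. For a pulled-back extension `1 → N → E ×_G H → H → 1` the map `L N → L E`
factors through `L (E ×_G H)`, so `L N → L (E ×_G H)` is injective too.
-/

set_option autoImplicit false

open CategoryTheory TensorProduct

namespace Pool.Agent.Results.MP_52d248_al.RationalAbelianization

universe u

/-- A localization functor on the category of groups: a functor `L` with a natural transformation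
`η : Id → L` such that `L(η_G)` and `η_{LG}` are equal isomorphisms for every group `G`. -/
structure LocalizationFunctor where
  /-- the functor -/
  L : GrpCat.{u} ⥤ GrpCat.{u}
  /-- the coaugmentation -/
  η : 𝟭 GrpCat.{u} ⟶ L
  map_eta : ∀ G : GrpCat.{u}, L.map (η.app G) = η.app (L.obj G)
  isIso_eta : ∀ G : GrpCat.{u}, IsIso (η.app (L.obj G))

/-- `1 → N → E → G → 1` is a short exact sequence of groups. -/
def IsExtension {N E G : GrpCat.{u}} (i : N ⟶ E) (p : E ⟶ G) : Prop :=
  Function.Injective i.hom ∧ Function.Surjective p.hom ∧ i.hom.range = p.hom.ker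

/-- An extension is `L`-flat if `L` maps it to a short exact sequence. -/
def IsFlatExtension (F : LocalizationFunctor.{u}) {N E G : GrpCat.{u}} (i : N ⟶ E) (p : E ⟶ G) :
    Prop :=
  IsExtension i p ∧ IsExtension (F.L.map i) (F.L.map p)

/-- The pullback `E ×_G H` of `p : E → G` and `α : H → G`, as a subgroup of `E × H`. -/
def pullback {E G H : GrpCat.{u}} (p : E ⟶ G) (α : H ⟶ G) : Subgroup (E × H) where
  carrier := {x | p.hom x.1 = α.hom x.2}
  mul_mem' := by
    intro a b ha hb
    simp only [Set.mem_ofPred_eq, Prod.fst_mul, Prod.snd_mul, map_mul] at *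
    rw [ha, hb]
  one_mem' := by simp
  inv_mem' := by
    intro a ha
    simp only [Set.mem_ofPred_eq, Prod.fst_inv, Prod.snd_inv, map_inv] at *
    rw [ha]

/-- The projection `E ×_G H → H`. -/
def pullbackProj {E G H : GrpCat.{u}} (p : E ⟶ G) (α : H ⟶ G) :
    GrpCat.of (pullback p α) ⟶ H :=
  GrpCat.ofHom ((MonoidHom.snd E H).comp (pullback p α).subtype)

/-- The inclusion `N → E ×_G H`, `n ↦ (i n, 1)`. -/
def pullbackIncl {N E G H : GrpCat.{u}} (i : N ⟶ E) (p : E ⟶ G) (α : H ⟶ G)
    (h : ∀ n : N, p.hom (i.hom n) = 1) : N ⟶ GrpCat.of (pullback p α) :=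
  GrpCat.ofHom (((MonoidHom.inl E H).comp i.hom).codRestrict (pullback p α) (by
    intro n
    show p.hom (i.hom n) = α.hom 1
    rw [h n, map_one]))

/-- In an extension the composite is trivial. -/
theorem IsExtension.comp_eq_one {N E G : GrpCat.{u}} {i : N ⟶ E} {p : E ⟶ G}
    (h : IsExtension i p) (n : N) : p.hom (i.hom n) = 1 := by
  have h1 : i.hom n ∈ i.hom.range := ⟨n, rfl⟩
  rw [h.2.2] at h1
  exact h1

/-- `L` is conditionally flat: for every `L`-flat extension `1 → N → E → G → 1` and every
homomorphism `H → G` the extension `1 → N → E ×_G H → H → 1` is `L`-flat. -/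
def ConditionallyFlat (F : LocalizationFunctor.{u}) : Prop :=
  ∀ (N E G : GrpCat.{u}) (i : N ⟶ E) (p : E ⟶ G) (h : IsFlatExtension F i p)
    (H : GrpCat.{u}) (α : H ⟶ G),
    IsFlatExtension F (pullbackIncl i p α h.1.comp_eq_one) (pullbackProj p α)

/-- `L` is an epireflection: `η_G` is surjective for every group `G`. -/
def IsEpireflection (F : LocalizationFunctor.{u}) : Prop :=
  ∀ G : GrpCat.{u}, Function.Surjective (F.η.app G).hom

/-! ### The functor `G ↦ ℚ ⊗ G_ab` -/

/-- The abelianization, written additively. -/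
abbrev Ab (G : Type u) [Group G] : Type u := Additive (Abelianization G)

/-- `ℚ ⊗ G_ab`, written additively. -/
abbrev QAb (G : Type u) [Group G] : Type u := ℚ ⊗[ℤ] Ab G

/-- The map on abelianizations, as a linear map. -/
def abMap {G H : Type u} [Group G] [Group H] (f : G →* H) : Ab G →ₗ[ℤ] Ab H :=
  (MonoidHom.toAdditive (Abelianization.map f)).toIntLinearMap

/-- The class of an element in the abelianization. -/
def abOf {G : Type u} [Group G] (g : G) : Ab G := Additive.ofMul (Abelianization.of g)

theorem abOf_mul {G : Type u} [Group G] (g h : G) : abOf (g * h) = abOf g + abOf h := by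
  simp [abOf]

theorem abOf_one {G : Type u} [Group G] : abOf (1 : G) = 0 := by
  simp [abOf]

theorem abMap_abOf {G H : Type u} [Group G] [Group H] (f : G →* H) (g : G) :
    abMap f (abOf g) = abOf (f g) := rfl

theorem abOf_surjective {G : Type u} [Group G] : Function.Surjective (abOf (G := G)) := by
  intro x
  obtain ⟨g, hg⟩ := QuotientGroup.mk_surjective (Additive.toMul x)
  exact ⟨g, hg⟩

theorem abMap_id {G : Type u} [Group G] : abMap (MonoidHom.id G) = LinearMap.id := by
  ext x
  obtain ⟨g, rfl⟩ := abOf_surjective x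
  rfl

theorem abMap_comp {G H K : Type u} [Group G] [Group H] [Group K] (g : H →* K) (f : G →* H) :
    abMap (g.comp f) = abMap g ∘ₗ abMap f := by
  ext x
  obtain ⟨g, rfl⟩ := abOf_surjective x
  rfl

/-- the object `L G` -/
def LObj (G : Type u) [Group G] : GrpCat.{u} := GrpCat.of (Multiplicative (QAb G))

/-- the map `L f` on underlying groups -/
def LHom {G H : Type u} [Group G] [Group H] (f : G →* H) :
    Multiplicative (QAb G) →* Multiplicative (QAb H) :=
  AddMonoidHom.toMultiplicative ((abMap f).lTensor ℚ).toAddMonoidHom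

theorem LHom_apply {G H : Type u} [Group G] [Group H] (f : G →* H) (x : QAb G) :
    LHom f (Multiplicative.ofAdd x) = Multiplicative.ofAdd ((abMap f).lTensor ℚ x) := rfl

theorem LHom_id (G : Type u) [Group G] : LHom (MonoidHom.id G) = MonoidHom.id _ := by
  refine MonoidHom.ext fun x => ?_
  obtain ⟨z, rfl⟩ := Multiplicative.ofAdd.surjective x
  rw [LHom_apply, abMap_id, LinearMap.lTensor_id]
  rfl

theorem LHom_comp {G H K : Type u} [Group G] [Group H] [Group K] (g : H →* K) (f : G →* H) :
    LHom (g.comp f) = (LHom g).comp (LHom f) := by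
  refine MonoidHom.ext fun x => ?_
  obtain ⟨z, rfl⟩ := Multiplicative.ofAdd.surjective x
  rw [LHom_apply, abMap_comp, LinearMap.lTensor_comp]
  rfl

/-- The functor `G ↦ ℚ ⊗ G_ab`. -/
def LF : GrpCat.{u} ⥤ GrpCat.{u} where
  obj G := LObj G
  map f := GrpCat.ofHom (LHom f.hom)
  map_id G := by
    apply GrpCat.hom_ext
    exact LHom_id G
  map_comp {G H K} f g := by
    apply GrpCat.hom_ext
    exact LHom_comp g.hom f.hom

/-- the homomorphism `G → ℚ ⊗ G_ab` -/
def etaHom (G : Type u) [Group G] : G →* Multiplicative (QAb G) where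
  toFun g := Multiplicative.ofAdd ((1 : ℚ) ⊗ₜ[ℤ] abOf g)
  map_one' := by rw [abOf_one, tmul_zero]; rfl
  map_mul' g h := by rw [abOf_mul, tmul_add]; rfl

theorem etaHom_apply {G : Type u} [Group G] (g : G) :
    etaHom G g = Multiplicative.ofAdd ((1 : ℚ) ⊗ₜ[ℤ] abOf g) := rfl

/-- the coaugmentation -/
def etaT : 𝟭 GrpCat.{u} ⟶ LF.{u} where
  app G := GrpCat.ofHom (etaHom G)
  naturality G H f := by
    apply GrpCat.hom_ext
    ext x
    rfl

/-- `b • (q ⊗ x) = ...`: moving an integer across. -/
theorem tmul_key {A : Type u} [AddCommGroup A] (q : ℚ) (x : A) :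
    ((q.den : ℤ)) • (q ⊗ₜ[ℤ] x) = (q.num : ℤ) • ((1 : ℚ) ⊗ₜ[ℤ] x) := by
  rw [smul_tmul', smul_tmul']
  congr 1
  simp [Rat.den_mul_eq_num]

/-- The two maps `L G → L L G` agree. -/
theorem LHom_etaHom (G : Type u) [Group G] :
    LHom (etaHom G) = etaHom (Multiplicative (QAb G)) := by
  refine MonoidHom.ext fun x => ?_
  obtain ⟨z, rfl⟩ := Multiplicative.ofAdd.surjective x
  induction z using TensorProduct.induction_on with
  | zero => rw [ofAdd_zero, map_one, map_one]
  | add a b ha hb => rw [ofAdd_add, map_mul, map_mul, ha, hb]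
  | tmul q m =>
    obtain ⟨g, rfl⟩ := abOf_surjective m
    rw [LHom_apply, LinearMap.lTensor_tmul, abMap_abOf, etaHom_apply, etaHom_apply]
    congr 1
    -- multiply by the denominator of `q`
    have hq : (q.den : ℚ) ≠ 0 := by exact_mod_cast q.den_ne_zero
    have h1 : ∀ a b : ℚ ⊗[ℤ] Ab (Multiplicative (QAb G)),
        (q.den : ℤ) • a = (q.den : ℤ) • b → a = b := by
      intro a b hab
      have h2 : (q.den : ℚ) • a = (q.den : ℚ) • b := by
        have h3 : ∀ c : ℚ ⊗[ℤ] Ab (Multiplicative (QAb G)),
            (q.den : ℚ) • c = (q.den : ℤ) • c := by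
          intro c
          rw [← Int.cast_smul_eq_zsmul ℚ]
          simp
        rw [h3, h3, hab]
      exact (smul_right_injective _ hq) h2
    apply h1
    rw [tmul_key, ← tmul_smul (q.den : ℤ)]
    have h4 : (q.den : ℤ) • abOf (Multiplicative.ofAdd (q ⊗ₜ[ℤ] abOf g)) =
        (q.num : ℤ) • abOf (Multiplicative.ofAdd ((1 : ℚ) ⊗ₜ[ℤ] abOf g)) := by
      have h5 : ∀ (n : ℤ) (y : QAb G), n • abOf (Multiplicative.ofAdd y) =
          abOf (Multiplicative.ofAdd (n • y)) := by
        intro n y
        let φ : QAb G →+ Ab (Multiplicative (QAb G)) :=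
          { toFun := fun y => abOf (Multiplicative.ofAdd y)
            map_zero' := abOf_one
            map_add' := fun a b => abOf_mul _ _ }
        exact (map_zsmul φ n y).symm
      rw [h5, h5, tmul_key]
    rw [h4, tmul_smul]

/-- the inverse of `η` on an object `L G` -/
def etaInv (G : Type u) [Group G] :
    QAb (Multiplicative (QAb G)) →ₗ[ℤ] QAb G :=
  TensorProduct.lift
    { toFun := fun q =>
        (((DistribSMul.toAddMonoidHom (QAb G) q).comp
          (MonoidHom.toAdditive (Abelianization.lift
            (MonoidHom.id (Multiplicative (QAb G)))))).toIntLinearMap :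
              Ab (Multiplicative (QAb G)) →ₗ[ℤ] QAb G)
      map_add' := by
        intro q r
        ext x
        exact add_smul q r _
      map_smul' := by
        intro n q
        ext x
        exact smul_assoc n q _ }

theorem etaInv_apply (G : Type u) [Group G] (q : ℚ) (y : QAb G) :
    etaInv G (q ⊗ₜ[ℤ] abOf (Multiplicative.ofAdd y)) = q • y := rfl

theorem eta_bijective (G : Type u) [Group G] :
    Function.Bijective (etaHom (Multiplicative (QAb G))) := by
  constructor
  · intro x y hxy
    have h := congrArg (fun z => etaInv G (Multiplicative.toAdd z)) hxy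
    obtain ⟨a, rfl⟩ := Multiplicative.ofAdd.surjective x
    obtain ⟨b, rfl⟩ := Multiplicative.ofAdd.surjective y
    simp only [etaHom_apply, toAdd_ofAdd, etaInv_apply, one_smul] at h
    rw [h]
  · intro x
    rw [← LHom_etaHom]
    obtain ⟨z, rfl⟩ := Multiplicative.ofAdd.surjective x
    induction z using TensorProduct.induction_on with
    | zero => exact ⟨1, by rw [ofAdd_zero, map_one]⟩
    | add a b ha hb =>
      obtain ⟨a', ha'⟩ := ha
      obtain ⟨b', hb'⟩ := hb
      exact ⟨a' * b', by rw [map_mul, ha', hb', ofAdd_add]⟩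
    | tmul q m =>
      obtain ⟨g, rfl⟩ := abOf_surjective m
      -- `q ⊗ [y]` with `y : L G` is `1 ⊗ [q y]`
      refine ⟨Multiplicative.ofAdd (q • Multiplicative.toAdd g), ?_⟩
      rw [LHom_etaHom, etaHom_apply]
      congr 1
      have hq : (q.den : ℚ) ≠ 0 := by exact_mod_cast q.den_ne_zero
      have h1 : ∀ a b : ℚ ⊗[ℤ] Ab (Multiplicative (QAb G)),
          (q.den : ℤ) • a = (q.den : ℤ) • b → a = b := by
        intro a b hab
        have h2 : (q.den : ℚ) • a = (q.den : ℚ) • b := by
          have h3 : ∀ c : ℚ ⊗[ℤ] Ab (Multiplicative (QAb G)),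
              (q.den : ℚ) • c = (q.den : ℤ) • c := by
            intro c
            rw [← Int.cast_smul_eq_zsmul ℚ]
            simp
          rw [h3, h3, hab]
        exact (smul_right_injective _ hq) h2
      apply h1
      rw [tmul_key, ← tmul_smul (q.den : ℤ), ← tmul_smul (q.num : ℤ)]
      congr 1
      have h5 : ∀ (n : ℤ) (y : QAb G), n • abOf (Multiplicative.ofAdd y) =
          abOf (Multiplicative.ofAdd (n • y)) := by
        intro n y
        let φ : QAb G →+ Ab (Multiplicative (QAb G)) :=
          { toFun := fun y => abOf (Multiplicative.ofAdd y)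
            map_zero' := abOf_one
            map_add' := fun a b => abOf_mul _ _ }
        exact (map_zsmul φ n y).symm
      have h6 : (q.den : ℤ) • (q • Multiplicative.toAdd g : QAb G) =
          (q.num : ℤ) • (Multiplicative.toAdd g : QAb G) := by
        rw [← Int.cast_smul_eq_zsmul ℚ, ← Int.cast_smul_eq_zsmul ℚ, smul_smul]
        congr 1
        simp [Rat.den_mul_eq_num]
      rw [h5, h6, ← h5]
      rfl

/-- The localization functor `G ↦ ℚ ⊗ G_ab`. -/
def QLoc : LocalizationFunctor.{u} where
  L := LF
  η := etaT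
  map_eta G := by
    apply GrpCat.hom_ext
    exact LHom_etaHom G
  isIso_eta G := by
    rw [ConcreteCategory.isIso_iff_bijective]
    exact eta_bijective G

/-! ### Right exactness -/

theorem ab_exact {N E G : GrpCat.{u}} {i : N ⟶ E} {p : E ⟶ G} (h : IsExtension i p) :
    Function.Exact (abMap i.hom) (abMap p.hom) := by
  intro y
  constructor
  · intro hy
    obtain ⟨e, rfl⟩ := abOf_surjective y
    rw [abMap_abOf] at hy
    have h1 : p.hom e ∈ commutator G := by
      rw [← Abelianization.ker_of]
      exact hy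
    have h2 : (commutator E).map p.hom = commutator G := by
      rw [commutator_def, commutator_def, Subgroup.map_commutator]
      rw [← MonoidHom.range_eq_map, MonoidHom.range_eq_top.2 h.2.1]
    rw [← h2] at h1
    obtain ⟨c, hc, hce⟩ := h1
    have h3 : e * c⁻¹ ∈ p.hom.ker := by
      rw [MonoidHom.mem_ker, map_mul, map_inv, hce, mul_inv_cancel]
    rw [← h.2.2] at h3
    obtain ⟨n, hn⟩ := h3
    refine ⟨abOf n, ?_⟩
    rw [abMap_abOf, hn, abOf_mul]
    have h4 : abOf c⁻¹ = (0 : Ab E) := by
      have h5 : c⁻¹ ∈ (Abelianization.of (G := E)).ker := by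
        rw [Abelianization.ker_of]
        exact inv_mem hc
      exact h5
    rw [h4, add_zero]
  · rintro ⟨x, rfl⟩
    obtain ⟨n, rfl⟩ := abOf_surjective x
    rw [abMap_abOf, abMap_abOf, h.comp_eq_one, abOf_one]

theorem abMap_surjective {E G : GrpCat.{u}} {p : E ⟶ G} (h : Function.Surjective p.hom) :
    Function.Surjective (abMap p.hom) := by
  intro y
  obtain ⟨g, rfl⟩ := abOf_surjective y
  obtain ⟨e, rfl⟩ := h g
  exact ⟨abOf e, rfl⟩

/-- An extension is mapped to an extension as soon as the first map stays injective. -/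
theorem isExtension_map {N E G : GrpCat.{u}} {i : N ⟶ E} {p : E ⟶ G} (h : IsExtension i p)
    (hi : Function.Injective (LHom i.hom)) :
    IsExtension (QLoc.L.map i) (QLoc.L.map p) := by
  refine ⟨hi, ?_, ?_⟩
  · intro y
    obtain ⟨z, rfl⟩ := Multiplicative.ofAdd.surjective y
    obtain ⟨x, hx⟩ := LinearMap.lTensor_surjective ℚ (abMap_surjective h.2.1) z
    exact ⟨Multiplicative.ofAdd x, by rw [← hx]; rfl⟩
  · have h1 := lTensor_exact ℚ (ab_exact h) (abMap_surjective h.2.1)
    ext y
    obtain ⟨z, rfl⟩ := Multiplicative.ofAdd.surjective y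
    constructor
    · rintro ⟨x, hx⟩
      exact (h1 z).2 ⟨Multiplicative.toAdd x, hx⟩
    · intro hz
      obtain ⟨x, hx⟩ := (h1 z).1 hz
      exact ⟨Multiplicative.ofAdd x, by rw [← hx]; rfl⟩

theorem isExtension_pullback {N E G H : GrpCat.{u}} {i : N ⟶ E} {p : E ⟶ G}
    (h : IsExtension i p) (α : H ⟶ G) :
    IsExtension (pullbackIncl i p α h.comp_eq_one) (pullbackProj p α) := by
  refine ⟨?_, ?_, ?_⟩
  · intro a b hab
    have h1 := congrArg (fun z : pullback p α => (z : E × H).1) hab
    exact h.1 h1
  · intro x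
    obtain ⟨e, he⟩ := h.2.1 (α.hom x)
    exact ⟨⟨(e, x), he⟩, rfl⟩
  · ext z
    constructor
    · rintro ⟨n, rfl⟩
      rfl
    · intro hz
      obtain ⟨⟨e, x⟩, hex⟩ := z
      have hx : x = 1 := hz
      have h1 : p.hom e = 1 := by
        have : p.hom e = α.hom x := hex
        rw [this, hx, map_one]
      have h2 : e ∈ i.hom.range := by
        rw [h.2.2]
        exact h1
      obtain ⟨n, hn⟩ := h2
      refine ⟨n, ?_⟩
      apply Subtype.ext
      exact Prod.ext hn hx.symm

theorem conditionallyFlat_QLoc : ConditionallyFlat QLoc.{u} := by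
  intro N E G i p h H α
  refine ⟨isExtension_pullback h.1 α, isExtension_map (isExtension_pullback h.1 α) ?_⟩
  have hinj : Function.Injective (LHom i.hom) := h.2.1
  have hfac : i.hom = ((MonoidHom.fst E H).comp (pullback p α).subtype).comp
      (pullbackIncl i p α h.1.comp_eq_one).hom := by
    ext n
    rfl
  have h2 : LHom i.hom = (LHom ((MonoidHom.fst E H).comp (pullback p α).subtype)).comp
      (LHom (pullbackIncl i p α h.1.comp_eq_one).hom) := by
    conv_lhs => rw [hfac]
    exact LHom_comp _ _
  rw [h2] at hinj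
  exact Function.Injective.of_comp hinj

theorem not_epireflection_QLoc : ¬ IsEpireflection QLoc.{u} := by
  intro h
  -- the group `ℤ` in the universe `u`
  obtain ⟨g, hg⟩ := h (GrpCat.of (Multiplicative (ULift.{u} ℤ)))
    (Multiplicative.ofAdd ((1 / 2 : ℚ) ⊗ₜ[ℤ] abOf (Multiplicative.ofAdd (ULift.up (1 : ℤ)))))
  -- the map `ℚ ⊗ ℤ_ab → ℚ`
  let f : Ab (Multiplicative (ULift.{u} ℤ)) →ₗ[ℤ] ℚ :=
    (((Int.castAddHom ℚ).comp (AddEquiv.ulift (α := ℤ)).toAddMonoidHom).comp
      (MonoidHom.toAdditive (Abelianization.lift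
        (MonoidHom.id (Multiplicative (ULift.{u} ℤ)))))).toIntLinearMap
  let F : QAb (Multiplicative (ULift.{u} ℤ)) →ₗ[ℤ] ℚ :=
    TensorProduct.lift
      { toFun := fun q => ((AddMonoidHom.mulLeft q).comp f.toAddMonoidHom).toIntLinearMap
        map_add' := by
          intro q r
          ext x
          exact add_mul q r _
        map_smul' := by
          intro n q
          ext x
          exact smul_mul_assoc n q _ }
  have h1 := congrArg (fun z => F (Multiplicative.toAdd z)) hg
  have h2 : (1 : ℚ) * (((Multiplicative.toAdd g).down : ℤ) : ℚ) = (1 / 2 : ℚ) * ((1 : ℤ) : ℚ) := h1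
  have h3 : (2 : ℚ) * (((Multiplicative.toAdd g).down : ℤ) : ℚ) = 1 := by
    rw [one_mul] at h2
    rw [h2]
    norm_num
  have h4 : (2 : ℤ) * (Multiplicative.toAdd g).down = 1 := by exact_mod_cast h3
  omega

/-- **There is a localization functor on the category of groups which is conditionally flat and
which is not an epireflection.** -/
theorem result : ∃ F : LocalizationFunctor.{u}, ConditionallyFlat F ∧ ¬ IsEpireflection F :=
  ⟨QLoc, conditionallyFlat_QLoc, not_epireflection_QLoc⟩

end Pool.Agent.Results.MP_52d248_al.RationalAbelianization
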